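import Mathlib

/-!
Every Boolean `m`-algebra with the weak `m`-extension property is weakly `m`-distributive.
-/

open Cardinal Set

namespace Pool.Agent.Results.MP_0b62d6_lc.WeakExt

universe u

/-- `A` is a Boolean `m`-algebra: every family of at most `m` elements has a join and a meet. -/
def IsMAlgebra (m : Cardinal.{u}) (A : Type u) [BooleanAlgebra A] : Prop :=
  ∀ s : Set A, #s ≤ m → (∃ a, IsLUB s a) ∧ (∃ a, IsGLB s a)

/-- `h` is an `m`-homomorphism: it preserves joins and meets of families of at most `m`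
elements. -/
def IsMHom (m : Cardinal.{u}) {A B : Type u} [BooleanAlgebra A] [BooleanAlgebra B]
    (h : BoundedLatticeHom A B) : Prop :=
  ∀ s : Set A, #s ≤ m →
    (∀ a, IsLUB s a → IsLUB (h '' s) (h a)) ∧ (∀ a, IsGLB s a → IsGLB (h '' s) (h a))

/-- The subalgebra `A₀` `m`-generates `A`. -/
def MGenerates (m : Cardinal.{u}) {A : Type u} [BooleanAlgebra A] (A₀ : BooleanSubalgebra A) :
    Prop :=
  ∀ B : BooleanSubalgebra A, A₀ ≤ B →
    (∀ s : Set A, s ⊆ B → #s ≤ m →
      (∀ a, IsLUB s a → a ∈ B) ∧ (∀ a, IsGLB s a → a ∈ B)) → B = ⊤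

/-- Condition (a') for a homomorphism `f` from the subalgebra `A₀` of `A` to `A'`: whenever a
family of at most `m` elements of `A₀` has meet `0` in `A`, the family of images has meet `0`
in `A'`. -/
def CondA' (m : Cardinal.{u}) {A A' : Type u} [BooleanAlgebra A] [BooleanAlgebra A']
    (A₀ : BooleanSubalgebra A) (f : BoundedLatticeHom A₀ A') : Prop :=
  ∀ s : Set A₀, #s ≤ m → IsGLB ((fun x : A₀ => (x : A)) '' s) ⊥ → IsGLB (f '' s) ⊥

/-- The weak `m`-extension property. -/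
def WeakExtension (m : Cardinal.{u}) (A' : Type u) [BooleanAlgebra A'] : Prop :=
  ∀ (A : Type u) [BooleanAlgebra A], IsMAlgebra m A →
    ∀ A₀ : BooleanSubalgebra A, MGenerates m A₀ →
      ∀ f : BoundedLatticeHom A₀ A', CondA' m A₀ f →
        ∃ h : BoundedLatticeHom A A', IsMHom m h ∧ ∀ x : A₀, h (x : A) = f x

/-- Weak `m`-distributivity: if `⋁ₛ a t s = 1` for all `t`, then the meets
`⋀ₜ ⋁_{s ∈ Φ t} a t s`, for `Φ` a choice of nonempty finite sets, have join `1`. -/
def WeaklyDistributive (m : Cardinal.{u}) (A' : Type u) [BooleanAlgebra A'] : Prop :=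
  ∀ (T S : Type u), #T ≤ m → #S ≤ m → ∀ a : T → S → A',
    (∀ t, IsLUB (Set.range (a t)) ⊤) →
    IsLUB {b : A' | ∃ Φ : T → Finset S, (∀ t, (Φ t).Nonempty) ∧
      IsGLB (Set.range fun t => (Φ t).sup (a t)) b} ⊤

section proof

variable {A : Type u} [BooleanAlgebra A]

/-- `y` is an ultrafilter of the Boolean algebra. -/
def IsUlt (y : Set A) : Prop :=
  (∀ a b, a ⊓ b ∈ y ↔ a ∈ y ∧ b ∈ y) ∧ (∀ a, aᶜ ∈ y ↔ a ∉ y)

theorem IsUlt.top {y : Set A} (hy : IsUlt y) : ⊤ ∈ y := by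
  by_cases h : (⊤ : A) ∈ y
  · exact h
  · have h1 : (⊥ : A) ∈ y := by
      have := (hy.2 ⊤).2 h
      rwa [compl_top] at this
    have h2 := (hy.1 ⊥ ⊤).1 (by rwa [bot_inf_eq])
    exact h2.2

theorem IsUlt.bot {y : Set A} (hy : IsUlt y) : ⊥ ∉ y := by
  intro h
  have := (hy.2 ⊥).1 (by rw [compl_bot]; exact hy.top)
  exact this h

theorem IsUlt.mono {y : Set A} (hy : IsUlt y) {a b : A} (hab : a ≤ b) (ha : a ∈ y) : b ∈ y := by
  have : a ⊓ b ∈ y := by rwa [inf_eq_left.2 hab]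
  exact ((hy.1 a b).1 this).2

theorem IsUlt.sup {y : Set A} (hy : IsUlt y) (a b : A) : a ⊔ b ∈ y ↔ a ∈ y ∨ b ∈ y := by
  have h1 := hy.2 (a ⊔ b)
  rw [compl_sup, hy.1, hy.2, hy.2] at h1
  tauto

/-- prime ideal theorem in the form needed -/
theorem exists_ult {S : Type u} (a : S → A) (b : A) (h : ∀ Φ : Finset S, ¬ b ≤ Φ.sup a) :
    ∃ y : Set A, IsUlt y ∧ b ∈ y ∧ ∀ s, a s ∉ y := by
  classical
  let I : Order.Ideal A :=
    { carrier := {x | ∃ Φ : Finset S, x ≤ Φ.sup a}
      lower' := by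
        rintro x y hyx ⟨Φ, hΦ⟩
        exact ⟨Φ, hyx.trans hΦ⟩
      nonempty' := ⟨⊥, ∅, bot_le⟩
      directed' := by
        rintro x ⟨Φ, hΦ⟩ y ⟨Ψ, hΨ⟩
        refine ⟨x ⊔ y, ⟨Φ ∪ Ψ, ?_⟩, le_sup_left, le_sup_right⟩
        rw [Finset.sup_union]
        exact sup_le_sup hΦ hΨ }
  have hdisj : Disjoint ((Order.PFilter.principal b : Order.PFilter A) : Set A) (I : Set A) := by
    rw [Set.disjoint_left]
    rintro x hx ⟨Φ, hΦ⟩
    have hx' : b ≤ x := hx
    exact h Φ (hx'.trans hΦ)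
  obtain ⟨J, hJp, hIJ, hFJ⟩ := DistribLattice.prime_ideal_of_disjoint_filter_ideal hdisj
  have htop : (⊤ : A) ∉ J := by
    intro h1
    exact Set.disjoint_left.1 hFJ (show (⊤ : A) ∈ (Order.PFilter.principal b : Order.PFilter A)
      from le_top) h1
  refine ⟨(J : Set A)ᶜ, ⟨?_, ?_⟩, ?_, ?_⟩
  · intro x y
    constructor
    · intro hxy
      exact ⟨fun hx => hxy (J.lower inf_le_left hx), fun hy => hxy (J.lower inf_le_right hy)⟩
    · rintro ⟨hx, hy⟩ hxy
      rcases hJp.mem_or_mem hxy with h1 | h1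
      · exact hx h1
      · exact hy h1
  · intro x
    constructor
    · intro hx hx'
      -- xᶜ ∉ J, x ∉ J : contradiction
      have h1 : x ⊓ xᶜ ∈ J := by rw [inf_compl_self]; exact J.bot_mem
      rcases hJp.mem_or_mem h1 with h2 | h2
      · exact hx' h2
      · exact hx h2
    · intro hx hx'
      have hx2 : x ∈ J := by
        by_contra h; exact hx h
      apply htop
      have := J.sup_mem hx2 hx'
      rwa [sup_compl_eq_top] at this
  · intro hb
    exact Set.disjoint_left.1 hFJ (show b ∈ (Order.PFilter.principal b : Order.PFilter A)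
      from le_refl b) hb
  · intro s hs
    exact hs (hIJ (show a s ∈ I from ⟨{s}, by simp⟩))

variable (m : Cardinal.{u})

section core

variable {T S : Type u} (a : T → S → A) (c : A)

/-- the space of the counterexample -/
def Z : Type u := {y : Set A // IsUlt y ∧ ¬ (c ∈ y ∧ ∀ t, ∃ s, a t s ∈ y)}

/-- the trace of an element -/
def hat (x : A) : Set (Z a c) := {y | x ∈ y.1}

theorem core (hm : IsMAlgebra m A) (hT : #T ≤ m)
    (hc : ∀ b : A, (∃ Φ : T → Finset S, (∀ t, (Φ t).Nonempty) ∧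
      IsGLB (Set.range fun t => (Φ t).sup (a t)) b) → Disjoint c b)
    (s : Set A) (hs : ∀ y : Z a c, ∃ x ∈ s, y ∉ hat a c x) (b : A) (hb : ∀ x ∈ s, b ≤ x) :
    b = ⊥ := by
  classical
  by_contra hne
  have hkey : ∀ y : Set A, IsUlt y → b ∈ y → c ∈ y ∧ ∀ t, ∃ s, a t s ∈ y := by
    intro y hy hby
    by_contra hcon
    obtain ⟨x, hx, hxy⟩ := hs ⟨y, hy, hcon⟩
    exact hxy (hy.mono (hb x hx) hby)
  have h1 : b ≤ c := by
    by_contra hcon
    have : ∀ Φ : Finset (ULift.{u} Unit), ¬ b ≤ Φ.sup (fun _ => c) := by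
      intro Φ hΦ
      apply hcon
      refine hΦ.trans (Finset.sup_le fun _ _ => le_refl c)
    obtain ⟨y, hy, hby, hcy⟩ := exists_ult (fun _ : ULift.{u} Unit => c) b this
    exact hcy ⟨()⟩ (hkey y hy hby).1
  have h2 : ∀ t, ∃ Φ : Finset S, b ≤ Φ.sup (a t) := by
    intro t
    by_contra hcon
    push Not at hcon
    obtain ⟨y, hy, hby, hcy⟩ := exists_ult (a t) b hcon
    obtain ⟨s, hs⟩ := (hkey y hy hby).2 t
    exact hcy s hs
  choose Φ hΦ using h2
  have hΦne : ∀ t, (Φ t).Nonempty := by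
    intro t
    rw [Finset.nonempty_iff_ne_empty]
    intro h0
    have := hΦ t
    rw [h0, Finset.sup_empty] at this
    exact hne (le_bot_iff.1 this)
  obtain ⟨g, hg⟩ := (hm (Set.range fun t => (Φ t).sup (a t)) (mk_range_le.trans hT)).2
  have hbg : b ≤ g := by
    apply hg.2
    rintro _ ⟨t, rfl⟩
    exact hΦ t
  have := hc g ⟨Φ, hΦne, hg⟩
  exact hne (le_bot_iff.1 (this h1 hbg))

theorem hat_inf (x y : A) : hat a c (x ⊓ y) = hat a c x ∩ hat a c y := by
  ext z; exact z.2.1.1 x y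

theorem hat_sup (x y : A) : hat a c (x ⊔ y) = hat a c x ∪ hat a c y := by
  ext z; exact z.2.1.sup x y

theorem hat_compl (x : A) : hat a c xᶜ = (hat a c x)ᶜ := by
  ext z; exact z.2.1.2 x

theorem hat_top : hat a c ⊤ = Set.univ := by
  ext z; exact ⟨fun _ => trivial, fun _ => z.2.1.top⟩

theorem hat_bot : hat a c ⊥ = ∅ := by
  ext z; exact ⟨fun h => z.2.1.bot h, fun h => absurd h (Set.notMem_empty z)⟩

theorem hat_injective (hm : IsMAlgebra m A) (hT : #T ≤ m)
    (hc : ∀ b : A, (∃ Φ : T → Finset S, (∀ t, (Φ t).Nonempty) ∧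
      IsGLB (Set.range fun t => (Φ t).sup (a t)) b) → Disjoint c b) :
    Function.Injective (hat a c) := by
  have key : ∀ x y : A, hat a c x ⊆ hat a c y → x ≤ y := by
    intro x y hxy
    have : x ⊓ yᶜ = ⊥ := by
      apply core m a c hm hT hc {x ⊓ yᶜ} ?_ _ (fun z hz => by rw [Set.mem_singleton_iff.1 hz])
      intro z
      refine ⟨_, rfl, ?_⟩
      rw [hat_inf, hat_compl]
      rintro ⟨h1, h2⟩
      exact h2 (hxy h1)
    exact disjoint_compl_right_iff.1 (disjoint_iff.2 this)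
  intro x y hxy
  exact le_antisymm (key x y hxy.le) (key y x hxy.ge)

/-- the `m`-field of sets generated by the traces -/
def fieldAlg : BooleanSubalgebra (Set (Z a c)) :=
  sInf {C | (∀ x, hat a c x ∈ C) ∧
    ∀ s : Set (Set (Z a c)), s ⊆ C → #s ≤ m → ⋃₀ s ∈ C}

theorem hat_mem (x : A) : hat a c x ∈ fieldAlg m a c := by
  rw [fieldAlg, BooleanSubalgebra.mem_sInf]
  exact fun C hC => hC.1 x

theorem sUnion_mem (s : Set (Set (Z a c))) (hs : s ⊆ fieldAlg m a c) (hc : #s ≤ m) :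
    ⋃₀ s ∈ fieldAlg m a c := by
  rw [fieldAlg, BooleanSubalgebra.mem_sInf]
  intro C hC
  apply hC.2 s _ hc
  intro B hB
  have := hs hB
  rw [SetLike.mem_coe, fieldAlg, BooleanSubalgebra.mem_sInf] at this
  exact this C hC

theorem sInter_mem (s : Set (Set (Z a c))) (hs : s ⊆ fieldAlg m a c) (hc : #s ≤ m) :
    ⋂₀ s ∈ fieldAlg m a c := by
  have h1 : (⋂₀ s)ᶜ ∈ fieldAlg m a c := by
    rw [Set.compl_sInter]
    apply sUnion_mem m a c _ _ (mk_image_le.trans hc)
    rintro _ ⟨B, hB, rfl⟩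
    exact BooleanSubalgebra.compl_mem (hs hB)
  rwa [BooleanSubalgebra.compl_mem_iff] at h1

theorem isLUB_field (s : Set (fieldAlg m a c)) (U : fieldAlg m a c)
    (hU : (U : Set (Z a c)) = ⋃₀ ((fun B : fieldAlg m a c => (B : Set (Z a c))) '' s)) :
    IsLUB s U := by
  constructor
  · intro B hB
    show (B : Set (Z a c)) ⊆ U
    rw [hU]
    exact Set.subset_sUnion_of_mem ⟨B, hB, rfl⟩
  · intro V hV
    show (U : Set (Z a c)) ⊆ V
    rw [hU]
    apply Set.sUnion_subset
    rintro _ ⟨B, hB, rfl⟩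
    exact hV hB

theorem isGLB_field (s : Set (fieldAlg m a c)) (U : fieldAlg m a c)
    (hU : (U : Set (Z a c)) = ⋂₀ ((fun B : fieldAlg m a c => (B : Set (Z a c))) '' s)) :
    IsGLB s U := by
  constructor
  · intro B hB
    show (U : Set (Z a c)) ⊆ B
    rw [hU]
    exact Set.sInter_subset_of_mem ⟨B, hB, rfl⟩
  · intro V hV
    show (V : Set (Z a c)) ⊆ U
    rw [hU]
    apply Set.subset_sInter
    rintro _ ⟨B, hB, rfl⟩
    exact hV hB

theorem exists_union (s : Set (fieldAlg m a c)) (hs : #s ≤ m) :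
    ∃ U : fieldAlg m a c,
      (U : Set (Z a c)) = ⋃₀ ((fun B : fieldAlg m a c => (B : Set (Z a c))) '' s) := by
  refine ⟨⟨_, sUnion_mem m a c _ ?_ (mk_image_le.trans hs)⟩, rfl⟩
  rintro _ ⟨B, _, rfl⟩
  exact B.2

theorem exists_inter (s : Set (fieldAlg m a c)) (hs : #s ≤ m) :
    ∃ U : fieldAlg m a c,
      (U : Set (Z a c)) = ⋂₀ ((fun B : fieldAlg m a c => (B : Set (Z a c))) '' s) := by
  refine ⟨⟨_, sInter_mem m a c _ ?_ (mk_image_le.trans hs)⟩, rfl⟩
  rintro _ ⟨B, _, rfl⟩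
  exact B.2

theorem field_isMAlgebra : IsMAlgebra m (fieldAlg m a c) := by
  intro s hs
  obtain ⟨U, hU⟩ := exists_union m a c s hs
  obtain ⟨V, hV⟩ := exists_inter m a c s hs
  exact ⟨⟨U, isLUB_field m a c s U hU⟩, ⟨V, isGLB_field m a c s V hV⟩⟩

/-- the subalgebra of traces -/
def A0 : BooleanSubalgebra (fieldAlg m a c) where
  carrier := {B | ∃ x, hat a c x = (B : Set (Z a c))}
  supClosed' := by
    rintro B ⟨x, hx⟩ C ⟨y, hy⟩
    exact ⟨x ⊔ y, by rw [hat_sup, hx, hy]; rfl⟩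
  infClosed' := by
    rintro B ⟨x, hx⟩ C ⟨y, hy⟩
    exact ⟨x ⊓ y, by rw [hat_inf, hx, hy]; rfl⟩
  compl_mem' := by
    rintro B ⟨x, hx⟩
    exact ⟨xᶜ, by rw [hat_compl, hx]; rfl⟩
  bot_mem' := ⟨⊥, by rw [hat_bot]; rfl⟩

theorem A0_generates : MGenerates m (A0 m a c) := by
  intro 𝔅 hA0 hcl
  -- the collection of underlying sets
  let C : BooleanSubalgebra (Set (Z a c)) :=
    { carrier := {B | ∃ h : B ∈ fieldAlg m a c, (⟨B, h⟩ : fieldAlg m a c) ∈ 𝔅}
      supClosed' := by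
        rintro B ⟨h1, h2⟩ D ⟨h3, h4⟩
        exact ⟨BooleanSubalgebra.sup_mem h1 h3, BooleanSubalgebra.sup_mem h2 h4⟩
      infClosed' := by
        rintro B ⟨h1, h2⟩ D ⟨h3, h4⟩
        exact ⟨BooleanSubalgebra.inf_mem h1 h3, BooleanSubalgebra.inf_mem h2 h4⟩
      compl_mem' := by
        rintro B ⟨h1, h2⟩
        exact ⟨BooleanSubalgebra.compl_mem h1, BooleanSubalgebra.compl_mem h2⟩
      bot_mem' := ⟨BooleanSubalgebra.bot_mem, BooleanSubalgebra.bot_mem⟩ }
  have hC : fieldAlg m a c ≤ C := by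
    apply sInf_le
    refine ⟨fun x => ⟨hat_mem m a c x, hA0 ⟨x, rfl⟩⟩, ?_⟩
    intro s hs hsm
    have hs1 : s ⊆ fieldAlg m a c := fun B hB => (hs hB).1
    refine ⟨sUnion_mem m a c s hs1 hsm, ?_⟩
    let s' : Set (fieldAlg m a c) := {B | (B : Set (Z a c)) ∈ s}
    have hs's : (fun B : fieldAlg m a c => (B : Set (Z a c))) '' s' = s := by
      ext B
      constructor
      · rintro ⟨D, hD, rfl⟩; exact hD
      · intro hB; exact ⟨⟨B, hs1 hB⟩, hB, rfl⟩
    have hs'm : #s' ≤ m := by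
      refine le_trans ?_ hsm
      apply Cardinal.mk_le_of_injective (f := fun B : s' => (⟨B.1.1, B.2⟩ : s))
      intro B D hBD
      have h3 : (B.1.1 : Set (Z a c)) = D.1.1 := congrArg (fun z : s => (z : Set (Z a c))) hBD
      exact Subtype.ext (Subtype.ext h3)
    apply (hcl s' _ hs'm).1
    · apply isLUB_field
      rw [hs's]
    · intro B hB
      obtain ⟨h1, h2⟩ := hs hB
      exact h2
  rw [eq_top_iff]
  intro B _
  obtain ⟨h1, h2⟩ := hC B.2
  exact h2

end core

theorem main (hm : IsMAlgebra m A) (hext : WeakExtension m A) : WeaklyDistributive m A := by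
  classical
  intro T S hT hS a ha
  by_contra hcon
  -- find c
  obtain ⟨c, hcne, hc⟩ : ∃ c : A, c ≠ ⊥ ∧ ∀ b : A, (∃ Φ : T → Finset S, (∀ t, (Φ t).Nonempty) ∧
      IsGLB (Set.range fun t => (Φ t).sup (a t)) b) → Disjoint c b := by
    by_contra hno
    push Not at hno
    apply hcon
    refine ⟨fun _ _ => le_top, ?_⟩
    intro u hu
    by_contra hu'
    have hu1 : uᶜ ≠ ⊥ := by
      intro h
      apply hu'
      rw [compl_eq_bot] at h
      rw [h]
    obtain ⟨b, hb, hb'⟩ := hno uᶜ hu1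
    exact hb' (disjoint_compl_left_iff.2 (hu hb))
  have hinj := hat_injective m a c hm hT hc
  -- the homomorphism f
  have hex : ∀ B : A0 m a c, ∃ x, hat a c x = ((B : fieldAlg m a c) : Set (Z a c)) := fun B => B.2
  choose f hf using hex
  let F : BoundedLatticeHom (A0 m a c) A :=
    { toFun := f
      map_sup' := by
        intro B C
        apply hinj
        rw [hf, hat_sup, hf, hf]; rfl
      map_inf' := by
        intro B C
        apply hinj
        rw [hf, hat_inf, hf, hf]; rfl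
      map_top' := by
        apply hinj
        rw [hf, hat_top]; rfl
      map_bot' := by
        apply hinj
        rw [hf, hat_bot]; rfl }
  have hF : ∀ B : A0 m a c, hat a c (F B) = ((B : fieldAlg m a c) : Set (Z a c)) := hf
  have hcond : CondA' m (A0 m a c) F := by
    intro s hs hglb
    refine ⟨fun _ _ => bot_le, ?_⟩
    intro b hb
    rw [le_bot_iff]
    apply core m a c hm hT hc (F '' s) ?_ b (fun x hx => hb hx)
    intro y
    by_contra hy
    push Not at hy
    obtain ⟨U, hU⟩ := exists_inter m a c ((fun x : A0 m a c => (x : fieldAlg m a c)) '' s)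
      (mk_image_le.trans hs)
    have h1 := isGLB_field m a c _ U hU
    have h2 : U = ⊥ := h1.unique hglb
    have h3 : y ∈ (U : Set (Z a c)) := by
      rw [hU]
      rintro _ ⟨_, ⟨B, hB, rfl⟩, rfl⟩
      have := hy (F B) ⟨B, hB, rfl⟩
      rw [hF] at this
      exact this
    rw [h2] at h3
    exact h3
  obtain ⟨h, hh1, hh2⟩ := hext (fieldAlg m a c) (field_isMAlgebra m a c) (A0 m a c)
    (A0_generates m a c) F hcond
  -- values of h on traces
  have hval : ∀ x : A, h ⟨hat a c x, hat_mem m a c x⟩ = x := by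
    intro x
    have h1 := hh2 ⟨⟨hat a c x, hat_mem m a c x⟩, ⟨x, rfl⟩⟩
    rw [h1]
    apply hinj
    rw [hF]
  -- the unions over s
  have hU : ∀ t, ∃ U : fieldAlg m a c,
      (U : Set (Z a c)) = ⋃₀ ((fun B : fieldAlg m a c => (B : Set (Z a c))) ''
        (Set.range fun s : S => (⟨hat a c (a t s), hat_mem m a c _⟩ : fieldAlg m a c))) :=
    fun t => exists_union m a c _ (mk_range_le.trans hS)
  choose U hU using hU
  have hUtop : ∀ t, h (U t) = ⊤ := by
    intro t
    have h1 := (hh1 _ (mk_range_le.trans hS)).1 _ (isLUB_field m a c _ (U t) (hU t))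
    have h2 : h '' (Set.range fun s : S => (⟨hat a c (a t s), hat_mem m a c _⟩ : fieldAlg m a c))
        = Set.range (a t) := by
      rw [← Set.range_comp]
      congr 1
      funext s
      exact hval _
    rw [h2] at h1
    exact h1.unique (ha t)
  obtain ⟨V, hV⟩ := exists_inter m a c (Set.range U) (mk_range_le.trans hT)
  have hVtop : h V = ⊤ := by
    have h1 := (hh1 _ (mk_range_le.trans hT)).2 _ (isGLB_field m a c _ V hV)
    have h2 : IsGLB (h '' Set.range U) ⊤ := by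
      refine ⟨?_, fun _ _ => le_top⟩
      rintro _ ⟨_, ⟨t, rfl⟩, rfl⟩
      rw [hUtop]
    exact h1.unique h2
  have hbot : (⟨hat a c c, hat_mem m a c c⟩ : fieldAlg m a c) ⊓ V = ⊥ := by
    apply Subtype.ext
    show hat a c c ∩ (V : Set (Z a c)) = ∅
    ext y
    simp only [Set.mem_inter_iff, Set.mem_empty_iff_false, iff_false, not_and]
    intro hyc hyV
    rw [hV] at hyV
    apply y.2.2
    refine ⟨hyc, fun t => ?_⟩
    have h1 : y ∈ (U t : Set (Z a c)) := hyV _ ⟨U t, ⟨t, rfl⟩, rfl⟩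
    rw [hU] at h1
    obtain ⟨_, ⟨_, ⟨s, rfl⟩, rfl⟩, hy⟩ := h1
    exact ⟨s, hy⟩
  have h1 : h ((⟨hat a c c, hat_mem m a c c⟩ : fieldAlg m a c) ⊓ V) = c := by
    rw [map_inf, hval, hVtop, inf_top_eq]
  rw [hbot, map_bot] at h1
  exact hcne h1.symm

end proof

/-- Every Boolean `m`-algebra with the weak `m`-extension property is weakly `m`-distributive,
for every infinite cardinal `m`. -/
theorem result (m : Cardinal.{u}) (_hm : ℵ₀ ≤ m) (A' : Type u) [BooleanAlgebra A']
    (hA' : IsMAlgebra m A') (hext : WeakExtension m A') : WeaklyDistributive m A' :=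
  main m hA' hext

end Pool.Agent.Results.MP_0b62d6_lc.WeakExt
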